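import Pool.Agent.H22.AlgD.Form
import Pool.Agent.H19T.Defs
import Pool.Agent.H17EF.Bridge

/-!
# AlgD EtForm: a compact submanifold which is etale over a torus lies in an algebraic hypersurface
-/

set_option autoImplicit false

open MvPolynomial Metric Set Filter
open scoped Topology
open Pool.Agent.H17 (PN VanishesAt vanishesAt_mk_iff)
open Pool.Agent.H17LG.Variety (FunField)
open Pool.Agent.H62.FC (Homog)
open Pool.Agent.H36.BP (EN)
open Pool.Agent.H17EF (LE)
open Pool.Agent.AD (Vd Chart)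
open Pool.Agent.H19T (EtaleIn ECh bb ll)

noncomputable section

namespace Pool.Agent.H22.AlgD

variable {N n : ℕ}

/-- the inclusion of `ℂ^n` in `ℂ^(n+p)` -/
def incl (n p : ℕ) : (Fin n → ℂ) →L[ℂ] (Fin (n + p) → ℂ) :=
  LinearMap.toContinuousLinearMap
    { toFun := fun w => Fin.append w (0 : Fin p → ℂ)
      map_add' := fun a b => by
        funext i
        refine Fin.addCases (fun j => ?_) (fun j => ?_) i
        · simp [Fin.append_left]
        · simp [Fin.append_right]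
      map_smul' := fun c a => by
        funext i
        refine Fin.addCases (fun j => ?_) (fun j => ?_) i
        · simp [Fin.append_left]
        · simp [Fin.append_right] }

theorem incl_apply {p : ℕ} (w : Fin n → ℂ) : incl n p w = Fin.append w (0 : Fin p → ℂ) := rfl

theorem bb_incl {p : ℕ} (w : Fin n → ℂ) : bb (incl n p w) = w := by
  funext j
  simp [bb, incl_apply]

theorem ll_incl {p : ℕ} (w : Fin n → ℂ) : ll (incl n p w) = 0 := by
  funext j
  simp [ll, incl_apply]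

theorem incl_bb {p : ℕ} {q : Vd (n + p)} (h : ll q = 0) : incl n p (bb q) = q := by
  funext i
  refine Fin.addCases (fun j => ?_) (fun j => ?_) i
  · rw [incl_apply, Fin.append_left]
    rfl
  · rw [incl_apply, Fin.append_right]
    have h1 := congrFun h j
    simpa [ll] using h1.symm

theorem norm_incl_le {p : ℕ} (w : Fin n → ℂ) : ‖incl n p w‖ ≤ ‖w‖ := by
  refine (pi_norm_le_iff_of_nonneg (norm_nonneg w)).2 fun i => ?_
  refine Fin.addCases (fun j => ?_) (fun j => ?_) i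
  · rw [incl_apply, Fin.append_left]
    exact norm_le_pi_norm w j
  · rw [incl_apply, Fin.append_right]
    simp

theorem norm_bb_le {p : ℕ} (q : Vd (n + p)) : ‖bb q‖ ≤ ‖q‖ :=
  (pi_norm_le_iff_of_nonneg (norm_nonneg q)).2 fun j => norm_le_pi_norm q (Fin.castAdd p j)

/-- **A compact submanifold of positive codimension which is etale over a torus is contained in an algebraic hypersurface.** -/
theorem exists_form_of_etale {P : Ideal (MvPolynomial (Fin (N + 1)) ℂ)} [P.IsPrime] {p : ℕ} (hp : 1 ≤ p)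
    {z : Fin (n + p) → FunField P} (hz : IsTranscendenceBasis ℂ z) (hX : ∃ i, (X i : MvPolynomial (Fin (N + 1)) ℂ) ∉ P) {D Y : Set (EN N)} {Λ : AddSubgroup (Vd n)}
    {u : EN N → Vd n} (hD : EtaleIn p D Y Λ u) (hY : (0 : EN N) ∉ Y) :
    ∃ (d : ℕ) (Q : MvPolynomial (Fin (N + 1)) ℂ), 1 ≤ d ∧ Q.IsHomogeneous d ∧ Q ∉ P ∧ ∀ x ∈ D, eval ((LE N).symm x) Q = 0 := by
  have h0D : (0 : EN N) ∉ D := fun h => hY (hD.sub h)
  choose s hs χ hχ using hD.chart
  -- compactness
  obtain ⟨S, hS⟩ : ∃ S : Set (EN N), S = D ∩ sphere 0 1 := ⟨_, rfl⟩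
  have hScomp : IsCompact S := by
    have h1 : S = insert 0 D ∩ sphere (0 : EN N) 1 := by
      rw [hS]
      ext x
      constructor
      · rintro ⟨h1, h2⟩
        exact ⟨Set.mem_insert_of_mem _ h1, h2⟩
      · rintro ⟨h1, h2⟩
        rcases h1 with h1 | h1
        · rw [h1, mem_sphere_zero_iff_norm, norm_zero] at h2
          exact absurd h2 (by norm_num)
        · exact ⟨h1, h2⟩
    rw [h1]
    exact (isCompact_sphere (0 : EN N) 1).inter_left hD.closed
  obtain ⟨O, hO⟩ : ∃ O : {x // x ∈ D} → Set (EN N), ∀ x, O x = (χ x.1 x.2).U ∩ (χ x.1 x.2).q ⁻¹' ball 0 (1 / 2) := ⟨_, fun _ => rfl⟩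
  have hOo : ∀ x, IsOpen (O x) := by
    intro x
    rw [hO]
    exact ContinuousOn.isOpen_inter_preimage (fun y hy => ((χ x.1 x.2).q_an y hy).continuousAt.continuousWithinAt)
      (χ x.1 x.2).isOpen_U isOpen_ball
  obtain ⟨t, ht⟩ := hScomp.elim_finite_subcover O hOo (by
    intro x hx
    rw [hS] at hx
    refine mem_iUnion.2 ⟨⟨x, hx.1⟩, ?_⟩
    rw [hO]
    refine ⟨(hχ x hx.1).mem_U, ?_⟩
    rw [mem_preimage, (hχ x hx.1).q_zero]
    exact mem_ball_self (by norm_num))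
  obtain ⟨J, e⟩ : ∃ J : ℕ, Nonempty (Fin J ≃ t) := ⟨t.card, ⟨(Finset.equivFin t).symm⟩⟩
  obtain ⟨e⟩ := e
  obtain ⟨F, hF⟩ : ∃ F : Fin J → (Fin n → ℂ) → Fin (N + 1) → ℂ, ∀ i w, F i w =
      (LE N).symm ((χ (e i).1.1 (e i).1.2).σ (incl n p w)) := ⟨_, fun _ _ => rfl⟩
  have hinc : ∀ w ∈ ball (0 : Fin n → ℂ) 1, incl n p w ∈ ball (0 : Vd (n + p)) 2 := by
    intro w hw
    rw [mem_ball_zero_iff] at hw ⊢
    exact lt_of_le_of_lt (norm_incl_le w) (by linarith)
  have hmemD : ∀ i, ∀ w ∈ ball (0 : Fin n → ℂ) 1, (χ (e i).1.1 (e i).1.2).σ (incl n p w) ∈ D := by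
    intro i w hw
    obtain ⟨h1, h2, h3⟩ := (χ (e i).1.1 (e i).1.2).σ_mem _ (hinc w hw)
    rw [(hχ (e i).1.1 (e i).1.2).mem_iff _ h1 h2, h3]
    exact ll_incl w
  have hF0 : ∀ i, ∀ w ∈ ball (0 : Fin n → ℂ) 1, F i w ≠ 0 := by
    intro i w hw h
    rw [hF] at h
    have h1 : (χ (e i).1.1 (e i).1.2).σ (incl n p w) = 0 := by
      have h2 := congrArg (LE N) h
      rwa [ContinuousLinearEquiv.apply_symm_apply, map_zero] at h2
    exact h0D (h1 ▸ hmemD i w hw)
  obtain ⟨D', hD'⟩ : ∃ D' : Set (PN N), D' = {x | ∃ (v : Fin (N + 1) → ℂ) (h : v ≠ 0), LE N v ∈ D ∧ x = Projectivization.mk ℂ v h} := ⟨_, rfl⟩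
  obtain ⟨d, Q, hd, hQ, hQP, hQD⟩ := exists_form_of_cover (q := n) (n := n + p) (by omega) hz hX (D := D') (F := F)
    (R := fun _ => 1) (ρ := fun _ => 1 / 2) (fun _ => ⟨by norm_num, by norm_num⟩)
    (fun i w hw => by
      have h1 : F i = fun w => (LE N).symm ((χ (e i).1.1 (e i).1.2).σ (incl n p w)) := funext (hF i)
      rw [h1]
      have h2 : AnalyticAt ℂ (fun w => (χ (e i).1.1 (e i).1.2).σ (incl n p w)) w :=
        ((χ (e i).1.1 (e i).1.2).σ_an _ (hinc w hw)).comp ((incl n p).analyticAt w)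
      exact ((LE N).symm.toContinuousLinearMap.analyticAt _).comp h2)
    hF0
    (fun i w hw => by
      rw [hD']
      refine ⟨F i w, hF0 i w hw, ?_, rfl⟩
      rw [hF, ContinuousLinearEquiv.apply_symm_apply]
      exact hmemD i w hw)
    (fun x hx => by
      rw [hD'] at hx
      obtain ⟨v, hv, hvD, rfl⟩ := hx
      -- the normalised representative
      have hvn : LE N v ≠ 0 := fun h => h0D (h ▸ hvD)
      obtain ⟨a, ha⟩ : ∃ a : ℂ, a = ((‖LE N v‖⁻¹ : ℝ) : ℂ) := ⟨_, rfl⟩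
      have ha0 : a ≠ 0 := by
        rw [ha]
        exact_mod_cast inv_ne_zero (norm_ne_zero_iff.2 hvn)
      have hy : a • LE N v ∈ S := by
        rw [hS]
        refine ⟨hD.smul_mem _ hvD a ha0, ?_⟩
        rw [mem_sphere_zero_iff_norm, norm_smul, ha, Complex.norm_real, norm_inv, norm_norm]
        exact inv_mul_cancel₀ (norm_ne_zero_iff.2 hvn)
      obtain ⟨x₁, hx₁t, hyO⟩ : ∃ x₁ ∈ t, a • LE N v ∈ O x₁ := by
        obtain ⟨x₁, h1⟩ := mem_iUnion.1 (ht hy)
        obtain ⟨h2, h3⟩ := mem_iUnion.1 h1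
        exact ⟨x₁, h2, h3⟩
      obtain ⟨i, hi⟩ : ∃ i, (e i).1 = x₁ := ⟨e.symm ⟨x₁, hx₁t⟩, by rw [e.apply_symm_apply]⟩
      subst hi
      rw [hO] at hyO
      obtain ⟨hyU, hyq⟩ := hyO
      have hyD : a • LE N v ∈ D := by rw [hS] at hy; exact hy.1
      have hyY := hD.sub hyD
      obtain ⟨-, c, hc, hcσ⟩ := (χ (e i).1.1 (e i).1.2).surj _ hyY hyU
      have hll := ((hχ (e i).1.1 (e i).1.2).mem_iff _ hyY hyU).1 hyD
      have hwn : bb ((χ (e i).1.1 (e i).1.2).q (a • LE N v)) ∈ closedBall (0 : Fin n → ℂ) (1 / 2) := by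
        rw [mem_closedBall_zero_iff]
        exact (norm_bb_le _).trans (mem_ball_zero_iff.1 hyq).le
      have hwb : bb ((χ (e i).1.1 (e i).1.2).q (a • LE N v)) ∈ ball (0 : Fin n → ℂ) 1 := closedBall_subset_ball (by norm_num) hwn
      refine ⟨i, _, hwn, hF0 i _ hwb, ?_⟩
      rw [Projectivization.mk_eq_mk_iff']
      refine ⟨a⁻¹ * c, ?_⟩
      rw [hF, incl_bb hll]
      have h1 : (LE N).symm (a • LE N v) = c • (LE N).symm ((χ (e i).1.1 (e i).1.2).σ ((χ (e i).1.1 (e i).1.2).q (a • LE N v))) := by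
        conv_lhs => rw [hcσ]
        rw [map_smul]
      rw [map_smul, ContinuousLinearEquiv.symm_apply_apply] at h1
      rw [mul_smul, ← h1, smul_smul, inv_mul_cancel₀ ha0, one_smul])
  refine ⟨d, Q, hd, hQ, hQP, fun x hx => ?_⟩
  have hx0 : (LE N).symm x ≠ 0 := by
    intro h
    have h2 := congrArg (LE N) h
    rw [ContinuousLinearEquiv.apply_symm_apply, map_zero] at h2
    exact h0D (h2 ▸ hx)
  have h1 := hQD (Projectivization.mk ℂ ((LE N).symm x) hx0) (by
    rw [hD']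
    exact ⟨_, hx0, by rw [ContinuousLinearEquiv.apply_symm_apply]; exact hx, rfl⟩)
  rwa [vanishesAt_mk_iff hQ] at h1

end Pool.Agent.H22.AlgD
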