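import Pool.Agent.H62.FC.Trdeg

/-!
# AlgD CountN: forms of degree `d` on a variety of dimension `n` satisfy `K d^q` linear conditions, `q < n`
-/

set_option autoImplicit false

open MvPolynomial

noncomputable section

namespace Pool.Agent.H22.AlgD

open Pool.Agent.H17GT (coordFun)
open Pool.Agent.H17LG.Variety (FunField)
open Pool.Agent.H62.FC (Homog)

variable {N : ℕ} {P : Ideal (MvPolynomial (Fin (N + 1)) ℂ)}

/-- `n` coordinates which are algebraically independent on the variety of dimension `n` -/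
theorem exists_coords [P.IsPrime] {n : ℕ} {z : Fin n → FunField P} (hz : IsTranscendenceBasis ℂ z)
    (hX : ∃ i, (X i : MvPolynomial (Fin (N + 1)) ℂ) ∉ P) :
    ∃ (j : Fin (N + 1)) (J : Fin n → Fin (N + 1)), ∀ (d : ℕ) (p : MvPolynomial (Fin n) ℂ), p ≠ 0 → p.totalDegree ≤ d →
      (∑ k ∈ Finset.range (d + 1), X j ^ (d - k) * rename J (homogeneousComponent k p)) ∉ P := by
  obtain ⟨j, hj0⟩ := hX
  have hj : coordFun P j ≠ 0 := by
    intro h0
    exact hj0 ((Pool.Agent.H92.GT.Proj.aeval_coordFun_eq_zero_iff P (X j)).1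
      (by rw [aeval_X]; exact h0))
  obtain ⟨x, hx1, hxgen, hxker⟩ := Pool.Agent.H92.GT.Proj.proj_point P hj
  have halg : Algebra.IsAlgebraic (IntermediateField.adjoin ℂ (Set.range x))
      (H17GT.functionField P) := by
    rw [hxgen]
    exact ⟨fun f => isAlgebraic_algebraMap (⟨f, IntermediateField.mem_top⟩ :
      (⊤ : IntermediateField ℂ (H17GT.functionField P)))⟩
  obtain ⟨J, hJ⟩ := Pool.Agent.H92.GT.exists_index halg (z := z) hz
  refine ⟨j, J, fun d p hp hd hmem => hp ?_⟩
  have hhom : (∑ k ∈ Finset.range (d + 1), X j ^ (d - k) * rename J (homogeneousComponent k p) :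
      MvPolynomial (Fin (N + 1)) ℂ).IsHomogeneous d := by
    apply MvPolynomial.IsHomogeneous.sum
    intro k hk
    have h1 : k ≤ d := Nat.lt_succ_iff.1 (Finset.mem_range.1 hk)
    have h2 := (MvPolynomial.isHomogeneous_X_pow (R := ℂ) j (d - k)).mul
      ((MvPolynomial.homogeneousComponent_isHomogeneous k p).rename_isHomogeneous (f := J))
    rwa [Nat.sub_add_cancel h1] at h2
  have h1 := (hxker d _ hhom).2 hmem
  have h2 : aeval (fun i => x (J i)) p = 0 := by
    have h3 : p = ∑ k ∈ Finset.range (d + 1), homogeneousComponent k p := by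
      conv_lhs => rw [← MvPolynomial.sum_homogeneousComponent p]
      refine Finset.sum_subset (Finset.range_mono (by omega)) fun k _ hk => ?_
      apply MvPolynomial.homogeneousComponent_eq_zero
      simp only [Finset.mem_range, not_lt] at hk
      omega
    rw [h3, map_sum]
    rw [map_sum] at h1
    rw [← h1]
    refine Finset.sum_congr rfl fun k _ => ?_
    rw [map_mul, map_pow, aeval_X, hx1, one_pow, one_mul, aeval_rename]
    rfl
  have h4 := hJ.1
  rw [algebraicIndependent_iff] at h4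
  exact h4 p h2

/-- **Dimension count.** -/
theorem exists_form_of_conditions [P.IsPrime] {n q : ℕ} (hq : q < n) {z : Fin n → FunField P} (hz : IsTranscendenceBasis ℂ z)
    (hX : ∃ i, (X i : MvPolynomial (Fin (N + 1)) ℂ) ∉ P) (K : ℕ) :
    ∃ d : ℕ, 1 ≤ d ∧ ∀ (V : Type) [AddCommGroup V] [Module ℂ V] [FiniteDimensional ℂ V], Module.finrank ℂ V ≤ K * d ^ q →
      ∀ L : MvPolynomial (Fin (N + 1)) ℂ →ₗ[ℂ] V,
      ∃ Q : MvPolynomial (Fin (N + 1)) ℂ, Q.IsHomogeneous d ∧ Q ∉ P ∧ L Q = 0 := by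
  obtain ⟨j, J, hJ⟩ := exists_coords hz hX
  -- the space of polynomials with exponents at most `e` in all variables
  obtain ⟨e, he⟩ : ∃ e : ℕ, e = K * n ^ q + 1 := ⟨_, rfl⟩
  obtain ⟨d, hd⟩ : ∃ d : ℕ, d = n * e := ⟨_, rfl⟩
  have hn : 1 ≤ n := by omega
  have he1 : 1 ≤ e := by omega
  refine ⟨d, by rw [hd]; exact Nat.mul_pos hn he1, fun V _ _ _ hV L => ?_⟩
  -- the map from coefficients to forms
  let mon : (Fin n → Fin (e + 1)) → MvPolynomial (Fin n) ℂ := fun a => monomial (Finsupp.equivFunOnFinite.symm fun i => (a i : ℕ)) 1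
  let Φ : ((Fin n → Fin (e + 1)) → ℂ) →ₗ[ℂ] MvPolynomial (Fin n) ℂ :=
    Fintype.linearCombination ℂ mon
  let Ψ : MvPolynomial (Fin n) ℂ →ₗ[ℂ] MvPolynomial (Fin (N + 1)) ℂ :=
    ∑ k ∈ Finset.range (d + 1), (LinearMap.mulLeft ℂ (X j ^ (d - k))) ∘ₗ (rename J).toLinearMap ∘ₗ homogeneousComponent k
  have hΨ : ∀ p, Ψ p = ∑ k ∈ Finset.range (d + 1), X j ^ (d - k) * rename J (homogeneousComponent k p) := by
    intro p
    simp only [Ψ, LinearMap.sum_apply, LinearMap.comp_apply, LinearMap.mulLeft_apply, AlgHom.toLinearMap_apply]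
  have hcard : Module.finrank ℂ V < Module.finrank ℂ ((Fin n → Fin (e + 1)) → ℂ) := by
    refine lt_of_le_of_lt hV ?_
    rw [Module.finrank_fintype_fun_eq_card, Fintype.card_fun, Fintype.card_fin, Fintype.card_fin]
    calc K * d ^ q = (K * n ^ q) * e ^ q := by rw [hd, mul_pow]; ring
      _ < (e + 1) * (e + 1) ^ q := by
          have h1 : e ^ q ≤ (e + 1) ^ q := Nat.pow_le_pow_left (by omega) q
          have h2 : 0 < (e + 1) ^ q := by positivity
          calc (K * n ^ q) * e ^ q ≤ (K * n ^ q) * (e + 1) ^ q := Nat.mul_le_mul_left _ h1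
            _ < (e + 1) * (e + 1) ^ q := Nat.mul_lt_mul_of_pos_right (by omega) h2
      _ = (e + 1) ^ (q + 1) := by rw [pow_succ, mul_comm]
      _ ≤ (e + 1) ^ n := Nat.pow_le_pow_right (by omega) hq
  obtain ⟨c, hc, hc0⟩ : ∃ c, (L ∘ₗ Ψ ∘ₗ Φ) c = 0 ∧ c ≠ 0 := by
    have h1 := LinearMap.ker_ne_bot_of_finrank_lt (f := L ∘ₗ Ψ ∘ₗ Φ) hcard
    obtain ⟨c, hc, hc0⟩ := Submodule.exists_mem_ne_zero_of_ne_bot h1
    exact ⟨c, hc, hc0⟩
  have hΦ : Φ c ≠ 0 := by
    intro h0
    apply hc0
    have hinj : LinearIndependent ℂ mon := by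
      have h2 : LinearIndependent ℂ (fun s : Fin n →₀ ℕ => monomial s (1 : ℂ)) := by
        have := (basisMonomials (Fin n) ℂ).linearIndependent
        rwa [coe_basisMonomials] at this
      refine h2.comp (fun a : Fin n → Fin (e + 1) => Finsupp.equivFunOnFinite.symm fun i => (a i : ℕ)) ?_
      intro a b hab
      funext i
      have h3 := DFunLike.congr_fun hab i
      simp only [Finsupp.equivFunOnFinite_symm_apply_apply] at h3
      exact Fin.ext h3
    have h5 := Fintype.linearIndependent_iff.1 hinj c (by simpa [Φ, Fintype.linearCombination_apply] using h0)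
    exact _root_.funext h5
  have hdeg : (Φ c).totalDegree ≤ d := by
    simp only [Φ, Fintype.linearCombination_apply]
    refine (totalDegree_finsetSum _ _).trans (Finset.sup_le fun a _ => ?_)
    refine (totalDegree_smul_le _ _).trans ?_
    refine (totalDegree_monomial_le _ _).trans ?_
    rw [Finsupp.sum_fintype _ _ (fun _ => rfl)]
    simp only [Finsupp.equivFunOnFinite_symm_apply_apply]
    calc ∑ i, ((a i : ℕ)) ≤ ∑ _i : Fin n, e := Finset.sum_le_sum fun i _ => by have := (a i).2; omega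
      _ = d := by rw [Finset.sum_const, Finset.card_univ, Fintype.card_fin, smul_eq_mul, hd]
  refine ⟨Ψ (Φ c), ?_, ?_, hc⟩
  · rw [hΨ]
    apply MvPolynomial.IsHomogeneous.sum
    intro k hk
    have h1 : k ≤ d := Nat.lt_succ_iff.1 (Finset.mem_range.1 hk)
    have h2 := (MvPolynomial.isHomogeneous_X_pow (R := ℂ) j (d - k)).mul
      ((MvPolynomial.homogeneousComponent_isHomogeneous k (Φ c)).rename_isHomogeneous (f := J))
    rwa [Nat.sub_add_cancel h1] at h2
  · rw [hΨ]
    exact hJ d _ hΦ hdeg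

end Pool.Agent.H22.AlgD
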