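import Mathlib

/-!
# AlgD Taylor: the Taylor polynomials of order `< m` of forms along a map from `ℂ^q`, Schwarz lemma
-/

set_option autoImplicit false

open MvPolynomial Metric Set
open scoped Topology

noncomputable section

namespace Pool.Agent.H22.AlgD

variable {q N : ℕ}

/-- the span of the monomials in `q` variables all of whose exponents are `< m` -/
def monSpace (q m : ℕ) : Submodule ℂ ((Fin q → ℂ) → ℂ) :=
  Submodule.span ℂ (Set.range fun (a : Fin q → Fin m) (w : Fin q → ℂ) => ∏ i, w i ^ (a i : ℕ))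

instance finite_monSpace (q m : ℕ) : FiniteDimensional ℂ (monSpace q m) :=
  FiniteDimensional.span_of_finite ℂ (Set.finite_range _)

theorem finrank_monSpace_le (q m : ℕ) : Module.finrank ℂ (monSpace q m) ≤ m ^ q := by
  have h := finrank_range_le_card (R := ℂ) (M := (Fin q → ℂ) → ℂ)
    (b := fun (a : Fin q → Fin m) (w : Fin q → ℂ) => ∏ i, w i ^ (a i : ℕ))
  rw [Fintype.card_fun, Fintype.card_fin, Fintype.card_fin] at h
  exact h

theorem prod_mem_monSpace {k m : ℕ} (hk : k < m) (f : Fin k → Fin q) :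
    (fun w : Fin q → ℂ => ∏ j, w (f j)) ∈ monSpace q m := by
  classical
  have hcard : ∀ i : Fin q, (Finset.univ.filter fun j => f j = i).card < m := fun i =>
    lt_of_le_of_lt ((Finset.card_le_univ _).trans (by rw [Fintype.card_fin])) hk
  refine Submodule.subset_span ⟨fun i => ⟨(Finset.univ.filter fun j => f j = i).card, hcard i⟩, ?_⟩
  funext w
  simp only
  rw [Finset.prod_comp w f]
  symm
  refine Finset.prod_subset (Finset.subset_univ _) fun i _ hi => ?_
  have h0 : (Finset.univ.filter fun j => f j = i) = ∅ := by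
    rw [Finset.filter_eq_empty_iff]
    intro j _ hj
    exact hi (Finset.mem_image.2 ⟨j, Finset.mem_univ _, hj⟩)
  rw [h0, Finset.card_empty, pow_zero]

theorem diag_mem_monSpace {k m : ℕ} (hk : k < m) (μ : ContinuousMultilinearMap ℂ (fun _ : Fin k => Fin q → ℂ) ℂ) :
    (fun w : Fin q → ℂ => μ fun _ => w) ∈ monSpace q m := by
  classical
  have h1 : (fun w : Fin q → ℂ => μ fun _ => w) =
      ∑ f : Fin k → Fin q, (μ fun j => (Pi.single (f j) 1 : Fin q → ℂ)) • fun w : Fin q → ℂ => ∏ j, w (f j) := by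
    funext w
    have h2 : (fun _ : Fin k => w) = fun _ : Fin k => ∑ i, w i • (Pi.single i (1 : ℂ) : Fin q → ℂ) := by
      funext j
      exact pi_eq_sum_univ' w
    rw [h2, μ.map_sum, Finset.sum_apply]
    refine Finset.sum_congr rfl fun f _ => ?_
    have h3 := μ.map_smul_univ (fun j => w (f j)) (fun j => (Pi.single (f j) (1 : ℂ) : Fin q → ℂ))
    rw [h3, Pi.smul_apply, smul_eq_mul, smul_eq_mul, mul_comm]
  rw [h1]
  exact Submodule.sum_mem _ fun f _ => Submodule.smul_mem _ _ (prod_mem_monSpace hk f)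

/-- a form along a map which is analytic is analytic -/
theorem analyticAt_eval {E : Type*} [NormedAddCommGroup E] [NormedSpace ℂ E] {F : E → Fin (N + 1) → ℂ} {x : E}
    (hF : AnalyticAt ℂ F x) (Q : MvPolynomial (Fin (N + 1)) ℂ) : AnalyticAt ℂ (fun w => eval (F w) Q) x := by
  have hFi : ∀ i, AnalyticAt ℂ (fun w => F w i) x := fun i =>
    ((ContinuousLinearMap.proj i : (Fin (N + 1) → ℂ) →L[ℂ] ℂ).analyticAt _).comp hF
  induction Q using MvPolynomial.induction_on with
  | C a => simpa using analyticAt_const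
  | add p r hp hr =>
    simp only [map_add]
    exact hp.add hr
  | mul_X p i hp =>
    simp only [map_mul, eval_X]
    exact hp.mul (hFi i)

/-- the Taylor polynomial of order `< m` at `0` of a form along a map (without the factorials) -/
def taylor {F : (Fin q → ℂ) → Fin (N + 1) → ℂ} (hF : AnalyticAt ℂ F 0) (m : ℕ) :
    MvPolynomial (Fin (N + 1)) ℂ →ₗ[ℂ] monSpace q m where
  toFun Q := ⟨∑ k ∈ Finset.range m, fun w => iteratedFDeriv ℂ k (fun w => eval (F w) Q) 0 fun _ => w,
    Submodule.sum_mem _ fun k hk => diag_mem_monSpace (Finset.mem_range.1 hk) _⟩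
  map_add' p r := by
    refine Subtype.ext ?_
    simp only [Submodule.coe_add]
    rw [← Finset.sum_add_distrib]
    refine Finset.sum_congr rfl fun k _ => ?_
    funext w
    have hp := (analyticAt_eval hF p).contDiffAt (n := (k : WithTop ℕ∞))
    have hr := (analyticAt_eval hF r).contDiffAt (n := (k : WithTop ℕ∞))
    have h1 : (fun w => eval (F w) (p + r)) = (fun w => eval (F w) p) + fun w => eval (F w) r := by
      funext w
      simp
    rw [h1, iteratedFDeriv_add_apply hp hr]
    simp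
  map_smul' c p := by
    refine Subtype.ext ?_
    simp only [RingHom.id_apply, Submodule.coe_smul]
    rw [Finset.smul_sum]
    refine Finset.sum_congr rfl fun k _ => ?_
    funext w
    have hp := (analyticAt_eval hF p).contDiffAt (n := (k : WithTop ℕ∞))
    have h1 : (fun w => eval (F w) (c • p)) = c • fun w => eval (F w) p := by
      funext w
      simp [smul_eval]
    rw [h1, iteratedFDeriv_const_smul_apply hp]
    simp

theorem eq_zero_of_taylor {F : (Fin q → ℂ) → Fin (N + 1) → ℂ} (hF : AnalyticAt ℂ F 0) {m : ℕ}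
    {Q : MvPolynomial (Fin (N + 1)) ℂ} (h : taylor hF m Q = 0) {k : ℕ} (hk : k < m) (w : Fin q → ℂ) :
    iteratedFDeriv ℂ k (fun w => eval (F w) Q) 0 (fun _ => w) = 0 := by
  have h1 : ∀ w : Fin q → ℂ, ∑ k ∈ Finset.range m, iteratedFDeriv ℂ k (fun w => eval (F w) Q) 0 (fun _ => w) = 0 := by
    intro w
    have h2 := congrFun (congrArg Subtype.val h) w
    simpa [taylor] using h2
  obtain ⟨p, hp⟩ : ∃ p : Polynomial ℂ, p = ∑ k ∈ Finset.range m,
      Polynomial.C (iteratedFDeriv ℂ k (fun w => eval (F w) Q) 0 (fun _ => w)) * Polynomial.X ^ k := ⟨_, rfl⟩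
  have hp0 : p = 0 := by
    refine Polynomial.funext fun ζ => ?_
    rw [hp, Polynomial.eval_finsetSum, Polynomial.eval_zero, ← h1 (ζ • w)]
    refine Finset.sum_congr rfl fun k _ => ?_
    have h3 := (iteratedFDeriv ℂ k (fun w => eval (F w) Q) 0).map_smul_univ (fun _ => ζ) (fun _ => w)
    rw [h3, Finset.prod_const, Finset.card_univ, Fintype.card_fin, Polynomial.eval_mul, Polynomial.eval_C,
      Polynomial.eval_pow, Polynomial.eval_X, smul_eq_mul, mul_comm]
  have h4 := congrArg (fun r => Polynomial.coeff r k) hp0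
  rw [hp] at h4
  simp only [Polynomial.finsetSum_coeff, Polynomial.coeff_C_mul, Polynomial.coeff_X_pow, mul_ite, mul_one, mul_zero,
    Polynomial.coeff_zero] at h4
  rw [Finset.sum_ite_eq, if_pos (Finset.mem_range.2 hk)] at h4
  exact h4

theorem schwarz_pow (m : ℕ) {g : ℂ → ℂ} {R M : ℝ} (hR : 0 < R) (hg : DifferentiableOn ℂ g (ball 0 R)) (hM : ∀ t ∈ ball (0 : ℂ) R, ‖g t‖ ≤ M)
    (hm : (m : ℕ∞) ≤ analyticOrderAt g 0) : ∀ t ∈ ball (0 : ℂ) R, ‖g t‖ ≤ M * (‖t‖ / R) ^ m := by
  induction m generalizing g M with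
  | zero =>
    intro t ht
    simpa using hM t ht
  | succ m ih =>
    have h0b : (0 : ℂ) ∈ ball (0 : ℂ) R := mem_ball_self hR
    have hgan : AnalyticAt ℂ g 0 := hg.analyticAt (isOpen_ball.mem_nhds h0b)
    have hg0 : g 0 = 0 := by
      by_contra hne
      have h1 : analyticOrderAt g 0 = 0 := analyticOrderAt_eq_zero.mpr (Or.inr hne)
      rw [h1] at hm
      simp at hm
    have hh : DifferentiableOn ℂ (dslope g 0) (ball 0 R) :=
      (Complex.differentiableOn_dslope (isOpen_ball.mem_nhds h0b)).2 hg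
    have hhan : AnalyticAt ℂ (dslope g 0) 0 := hh.analyticAt (isOpen_ball.mem_nhds h0b)
    have hmul : g = id * dslope g 0 := by
      funext t
      have h1 := sub_smul_dslope g 0 t
      rw [hg0, sub_zero, sub_zero, smul_eq_mul] at h1
      exact h1.symm
    have hord : ((m : ℕ) : ℕ∞) ≤ analyticOrderAt (dslope g 0) 0 := by
      have h1 : analyticOrderAt g 0 = 1 + analyticOrderAt (dslope g 0) 0 := by
        conv_lhs => rw [hmul]
        rw [analyticOrderAt_mul analyticAt_id hhan, analyticOrderAt_id]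
      rw [h1] at hm
      push_cast at hm
      rw [add_comm] at hm
      exact (ENat.add_le_add_iff_left (by simp)).1 hm
    have hbd : ∀ t ∈ ball (0 : ℂ) R, ‖dslope g 0 t‖ ≤ M / R := by
      intro t ht
      refine Complex.norm_dslope_le_div_of_mapsTo_ball hg ?_ ht
      intro t' ht'
      rw [hg0, mem_closedBall_zero_iff]
      exact hM t' ht'
    intro t ht
    have h2 := ih hh hbd hord t ht
    have h3 : g t = t * dslope g 0 t := congrFun hmul t
    rw [h3, norm_mul]
    calc ‖t‖ * ‖dslope g 0 t‖ ≤ ‖t‖ * (M / R * (‖t‖ / R) ^ m) := mul_le_mul_of_nonneg_left h2 (norm_nonneg t)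
      _ = M * (‖t‖ / R) ^ (m + 1) := by
        rw [pow_succ]
        ring

/-- **Schwarz lemma** in a ball of a normed space, for functions which vanish to order `m` at the centre. -/
theorem norm_le_of_iteratedFDeriv {E : Type*} [NormedAddCommGroup E] [NormedSpace ℂ E] {m : ℕ} {G : E → ℂ} {R M : ℝ}
    (hR : 0 < R) (hG : AnalyticOnNhd ℂ G (ball 0 R)) (hM : ∀ w ∈ ball (0 : E) R, ‖G w‖ ≤ M)
    (h0 : ∀ k < m, ∀ w, iteratedFDeriv ℂ k G 0 (fun _ => w) = 0) {w : E} (hw : w ∈ ball (0 : E) R) :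
    ‖G w‖ ≤ M * (‖w‖ / R) ^ m := by
  rcases eq_or_ne w 0 with rfl | hw0
  · rcases Nat.eq_zero_or_pos m with rfl | hm
    · simpa using hM 0 (mem_ball_self hR)
    · have h1 := h0 0 hm 0
      rw [iteratedFDeriv_zero_apply] at h1
      rw [h1, norm_zero, norm_zero, zero_div, zero_pow hm.ne', mul_zero]
  have hwn : 0 < ‖w‖ := norm_pos_iff.2 hw0
  obtain ⟨L, hL⟩ : ∃ L : ℂ →L[ℂ] E, L = (ContinuousLinearMap.id ℂ ℂ).smulRight w := ⟨_, rfl⟩
  have hLa : ∀ ζ, L ζ = ζ • w := fun ζ => by simp [hL]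
  obtain ⟨g, hg⟩ : ∃ g : ℂ → ℂ, g = G ∘ L := ⟨_, rfl⟩
  have hball : ∀ ζ : ℂ, ζ ∈ ball (0 : ℂ) (R / ‖w‖) ↔ L ζ ∈ ball (0 : E) R := by
    intro ζ
    rw [mem_ball_zero_iff, mem_ball_zero_iff, hLa, norm_smul, lt_div_iff₀ hwn]
  have hgd : AnalyticOnNhd ℂ g (ball 0 (R / ‖w‖)) := by
    intro ζ hζ
    rw [hg]
    exact (hG _ ((hball ζ).1 hζ)).comp (L.analyticAt ζ)
  have hR' : 0 < R / ‖w‖ := div_pos hR hwn
  have hord : (m : ℕ∞) ≤ analyticOrderAt g 0 := by
    rw [natCast_le_analyticOrderAt_iff_iteratedDeriv_eq_zero (hgd 0 (mem_ball_self hR'))]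
    intro k hk
    have hs : IsOpen (ball (0 : E) R) := isOpen_ball
    have hs' : IsOpen (L ⁻¹' ball (0 : E) R) := hs.preimage L.continuous
    have hx : L 0 ∈ ball (0 : E) R := by rw [map_zero]; exact mem_ball_self hR
    have h1 := L.iteratedFDerivWithin_comp_right (f := G) (s := ball (0 : E) R) (n := (k : WithTop ℕ∞)) (i := k)
      (fun y hy => ((hG y hy).contDiffAt).contDiffWithinAt) hs.uniqueDiffOn hs'.uniqueDiffOn (x := 0) hx le_rfl
    rw [iteratedFDerivWithin_of_isOpen k hs' hx, iteratedFDerivWithin_of_isOpen k hs hx] at h1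
    rw [iteratedDeriv_eq_iteratedFDeriv, hg, h1, ContinuousMultilinearMap.compContinuousLinearMap_apply, map_zero]
    have h2 := h0 k hk (L 1)
    exact h2
  have h3 := schwarz_pow m hR' hgd.differentiableOn (M := M) (fun ζ hζ => by rw [hg]; exact hM _ ((hball ζ).1 hζ)) hord 1
    ((hball 1).2 (by rw [hLa, one_smul]; exact hw))
  rw [hg, Function.comp_apply, hLa, one_smul, norm_one] at h3
  have h4 : 1 / (R / ‖w‖) = ‖w‖ / R := by rw [one_div_div]
  rw [h4] at h3
  exact h3

end Pool.Agent.H22.AlgD
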