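import Pool.Agent.H22.AlgD.CountN
import Pool.Agent.H22.AlgD.Taylor
import Pool.Agent.H17.BrodyLimit

/-!
# AlgD Form: a subset of a projective variety which is covered by finitely many holomorphic pieces of smaller dimension
lies in a hypersurface
-/

set_option autoImplicit false

open MvPolynomial Metric Set
open scoped Topology
open Pool.Agent.H17 (PN VanishesAt vanishesAt_mk_iff)
open Pool.Agent.H17LG.Variety (FunField)
open Pool.Agent.H62.FC (Homog)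

noncomputable section

namespace Pool.Agent.H22.AlgD

variable {N n q : ℕ} {P : Ideal (MvPolynomial (Fin (N + 1)) ℂ)}

theorem eval_smul_form {d : ℕ} {Q : MvPolynomial (Fin (N + 1)) ℂ} (hQ : Q.IsHomogeneous d) (c : ℂ)
    (x : Fin (N + 1) → ℂ) : eval (c • x) Q = c ^ d * eval x Q := by
  rw [MvPolynomial.eval_eq', MvPolynomial.eval_eq', Finset.mul_sum]
  apply Finset.sum_congr rfl
  intro m hm
  have hdeg : ∑ i, m i = d := by
    have := hQ (MvPolynomial.mem_support_iff.1 hm)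
    rw [Finsupp.weight_apply] at this
    simpa [Finsupp.sum_fintype] using this
  have h1 : ∏ i, (c • x) i ^ m i = c ^ d * ∏ i, x i ^ m i := by
    rw [← hdeg, ← Finset.prod_pow_eq_pow_sum, ← Finset.prod_mul_distrib]
    exact Finset.prod_congr rfl fun i _ => by simp [mul_pow]
  rw [h1]
  ring

theorem exists_const {J : ℕ} {F : Fin J → (Fin q → ℂ) → Fin (N + 1) → ℂ} {R ρ : Fin J → ℝ}
    (hρ : ∀ i, 0 < ρ i ∧ ρ i < R i) (hF : ∀ i, AnalyticOnNhd ℂ (F i) (ball 0 (R i)))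
    (hF0 : ∀ i, ∀ w ∈ ball (0 : Fin q → ℂ) (R i), F i w ≠ 0) :
    ∃ (R' : Fin J → ℝ) (lam B : ℝ), 0 ≤ lam ∧ lam < 1 ∧ 0 < B ∧ ∀ i, ρ i < R' i ∧ R' i < R i ∧ ρ i / R' i ≤ lam ∧
      ∃ c C : ℝ, 0 < c ∧ C / c ≤ B ∧ 0 < C ∧ ∀ w ∈ closedBall (0 : Fin q → ℂ) (R' i), c ≤ ‖F i w‖ ∧ ‖F i w‖ ≤ C := by
  obtain ⟨R', hR'⟩ : ∃ R' : Fin J → ℝ, R' = fun i => (ρ i + R i) / 2 := ⟨_, rfl⟩
  have h1 : ∀ i, ρ i < R' i ∧ R' i < R i := fun i => by
    rw [hR']
    have := hρ i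
    constructor <;> linarith
  have h2 : ∀ i, ∃ c C : ℝ, 0 < c ∧ 0 < C ∧ ∀ w ∈ closedBall (0 : Fin q → ℂ) (R' i), c ≤ ‖F i w‖ ∧ ‖F i w‖ ≤ C := by
    intro i
    have hsub : closedBall (0 : Fin q → ℂ) (R' i) ⊆ ball 0 (R i) := closedBall_subset_ball (h1 i).2
    have hcont : ContinuousOn (fun w => ‖F i w‖) (closedBall (0 : Fin q → ℂ) (R' i)) :=
      ((hF i).continuousOn.mono hsub).norm
    have hne : (closedBall (0 : Fin q → ℂ) (R' i)).Nonempty :=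
      ⟨0, mem_closedBall_self ((hρ i).1.trans (h1 i).1).le⟩
    obtain ⟨a, ha, hmin⟩ := (isCompact_closedBall (0 : Fin q → ℂ) (R' i)).exists_isMinOn hne hcont
    obtain ⟨b, hb, hmax⟩ := (isCompact_closedBall (0 : Fin q → ℂ) (R' i)).exists_isMaxOn hne hcont
    exact ⟨‖F i a‖, ‖F i b‖, norm_pos_iff.2 (hF0 i a (hsub ha)), norm_pos_iff.2 (hF0 i b (hsub hb)),
      fun w hw => ⟨hmin hw, hmax hw⟩⟩
  choose c C hc hC hcC using h2
  rcases Nat.eq_zero_or_pos J with rfl | hJ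
  · exact ⟨R', 0, 1, le_rfl, one_pos, one_pos, fun i => i.elim0⟩
  have : Nonempty (Fin J) := ⟨⟨0, hJ⟩⟩
  obtain ⟨i₁, h3⟩ := Finite.exists_max fun i => ρ i / R' i
  obtain ⟨i₂, h4⟩ := Finite.exists_max fun i => C i / c i
  have hR'0 : ∀ i, 0 < R' i := fun i => (hρ i).1.trans (h1 i).1
  exact ⟨R', ρ i₁ / R' i₁, C i₂ / c i₂, (div_pos (hρ i₁).1 (hR'0 i₁)).le, (div_lt_one (hR'0 i₁)).2 (h1 i₁).1,
    div_pos (hC i₂) (hc i₂), fun i => ⟨(h1 i).1, (h1 i).2, h3 i, c i, C i, hc i, h4 i, hC i, hcC i⟩⟩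

/-- **A set which is covered by finitely many holomorphic pieces of dimension `q < n` lies in a hypersurface which does not
contain the `n`-dimensional variety of `P`.** The pieces are given by homogeneous coordinates `F i` on the ball of radius
`R i`; their images are in `D`, and the images of the closed balls of radius `ρ i < R i` cover `D`. -/
theorem exists_form_of_cover [P.IsPrime] (hq : q < n) {z : Fin n → FunField P} (hz : IsTranscendenceBasis ℂ z)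
    (hX : ∃ i, (X i : MvPolynomial (Fin (N + 1)) ℂ) ∉ P) {D : Set (PN N)} {J : ℕ}
    {F : Fin J → (Fin q → ℂ) → Fin (N + 1) → ℂ} {R ρ : Fin J → ℝ} (hρ : ∀ i, 0 < ρ i ∧ ρ i < R i)
    (hF : ∀ i, AnalyticOnNhd ℂ (F i) (ball 0 (R i))) (hF0 : ∀ i, ∀ w ∈ ball (0 : Fin q → ℂ) (R i), F i w ≠ 0)
    (hFD : ∀ i, ∀ w (hw : w ∈ ball (0 : Fin q → ℂ) (R i)), Projectivization.mk ℂ (F i w) (hF0 i w hw) ∈ D)
    (hcov : ∀ x ∈ D, ∃ i, ∃ w ∈ closedBall (0 : Fin q → ℂ) (ρ i), ∃ h : F i w ≠ 0, x = Projectivization.mk ℂ (F i w) h) :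
    ∃ (d : ℕ) (Q : MvPolynomial (Fin (N + 1)) ℂ), 1 ≤ d ∧ Q.IsHomogeneous d ∧ Q ∉ P ∧ ∀ x ∈ D, VanishesAt Q x := by
  obtain ⟨R', lam, B, hlam0, hlam1, hB, hcon⟩ := exists_const hρ hF hF0
  obtain ⟨κ, hκ⟩ : ∃ κ : ℕ, lam ^ κ * B ≤ 1 / 2 := by
    obtain ⟨κ, hκ⟩ := exists_pow_lt_of_lt_one (show (0 : ℝ) < 1 / (2 * B) by positivity) hlam1
    refine ⟨κ, ?_⟩
    have h1 := mul_le_mul_of_nonneg_right hκ.le hB.le
    have h2 : 1 / (2 * B) * B = 1 / 2 := by field_simp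
    rwa [h2] at h1
  obtain ⟨d, hd, hcount⟩ := exists_form_of_conditions hq hz hX (J * κ ^ q)
  have hF00 : ∀ i, AnalyticAt ℂ (F i) 0 := fun i => hF i 0 (mem_ball_self ((hρ i).1.trans (hρ i).2))
  obtain ⟨Q, hQ, hQP, hQL⟩ := hcount ((i : Fin J) → monSpace q (κ * d))
    (by
      rw [Module.finrank_pi_fintype]
      calc ∑ _i : Fin J, Module.finrank ℂ (monSpace q (κ * d)) ≤ ∑ _i : Fin J, (κ * d) ^ q :=
            Finset.sum_le_sum fun _ _ => finrank_monSpace_le _ _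
        _ = J * κ ^ q * d ^ q := by
            rw [Finset.sum_const, Finset.card_univ, Fintype.card_fin, smul_eq_mul, mul_pow, mul_assoc])
    (LinearMap.pi fun i => taylor (hF00 i) (κ * d))
  have hQT : ∀ i, taylor (hF00 i) (κ * d) Q = 0 := fun i => congrFun hQL i
  refine ⟨d, Q, hd, hQ, hQP, ?_⟩
  -- the supremum of `|Q(v)| / ‖v‖ ^ d` on `D`
  obtain ⟨S, hS⟩ : ∃ S : Set ℝ, S = {t | ∃ v : Fin (N + 1) → ℂ, ∃ h : v ≠ 0, Projectivization.mk ℂ v h ∈ D ∧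
    t = ‖eval v Q‖ / ‖v‖ ^ d} := ⟨_, rfl⟩
  -- independence of the representative
  have hrep : ∀ {v w : Fin (N + 1) → ℂ} (hv : v ≠ 0) (hw : w ≠ 0), Projectivization.mk ℂ v hv = Projectivization.mk ℂ w hw →
      ‖eval v Q‖ / ‖v‖ ^ d = ‖eval w Q‖ / ‖w‖ ^ d := by
    intro v w hv hw h
    obtain ⟨a, ha⟩ := (Projectivization.mk_eq_mk_iff ℂ v w hv hw).1 h
    have ha' : v = (a : ℂ) • w := ha.symm
    have h1 : eval v Q = (a : ℂ) ^ d * eval w Q := by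
      rw [ha']
      exact eval_smul_form hQ _ _
    rw [h1, ha', norm_mul, norm_smul, norm_pow, mul_pow]
    have ha0 : ‖(a : ℂ)‖ ^ d ≠ 0 := pow_ne_zero _ (norm_ne_zero_iff.2 a.ne_zero)
    rw [mul_div_mul_left _ _ ha0]
  have hpt : ∀ t ∈ S, ∃ i, ∃ w ∈ closedBall (0 : Fin q → ℂ) (ρ i), t = ‖eval (F i w) Q‖ / ‖F i w‖ ^ d := by
    intro t ht
    rw [hS] at ht
    obtain ⟨v, hv, hvD, rfl⟩ := ht
    obtain ⟨i, w, hw, hne, hx⟩ := hcov _ hvD
    exact ⟨i, w, hw, hrep hv hne hx⟩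
  have hSmem : ∀ i, ∀ w ∈ ball (0 : Fin q → ℂ) (R i), ‖eval (F i w) Q‖ / ‖F i w‖ ^ d ∈ S := by
    intro i w hw
    rw [hS]
    exact ⟨F i w, hF0 i w hw, hFD i w hw, rfl⟩
  have hbdd : BddAbove S := by
    have h1 : ∀ i, ∃ b : ℝ, ∀ w ∈ closedBall (0 : Fin q → ℂ) (ρ i), ‖eval (F i w) Q‖ / ‖F i w‖ ^ d ≤ b := by
      intro i
      have hsub : closedBall (0 : Fin q → ℂ) (ρ i) ⊆ ball 0 (R i) := closedBall_subset_ball (hρ i).2
      have hcont : ContinuousOn (fun w => ‖eval (F i w) Q‖ / ‖F i w‖ ^ d) (closedBall (0 : Fin q → ℂ) (ρ i)) := by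
        intro w hw
        have h2 : ContinuousAt (fun w => ‖eval (F i w) Q‖ / ‖F i w‖ ^ d) w :=
          ((analyticAt_eval (hF i w (hsub hw)) Q).continuousAt.norm).div
            (((hF i w (hsub hw)).continuousAt.norm).pow d) (pow_ne_zero _ (norm_ne_zero_iff.2 (hF0 i w (hsub hw))))
        exact h2.continuousWithinAt
      obtain ⟨b, hb⟩ := (isCompact_closedBall (0 : Fin q → ℂ) (ρ i)).bddAbove_image hcont
      exact ⟨b, fun w hw => hb ⟨w, hw, rfl⟩⟩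
    choose b hb using h1
    refine ⟨∑ i, |b i|, fun t ht => ?_⟩
    obtain ⟨i, w, hw, rfl⟩ := hpt t ht
    exact (hb i w hw).trans ((le_abs_self _).trans (Finset.single_le_sum (f := fun i => |b i|)
      (fun _ _ => abs_nonneg _) (Finset.mem_univ i)))
  obtain ⟨M, hM⟩ : ∃ M : ℝ, M = sSup S := ⟨_, rfl⟩
  have hMle : ∀ t ∈ S, t ≤ M := fun t ht => hM ▸ le_csSup hbdd ht
  have hhalf : ∀ t ∈ S, t ≤ M / 2 := by
    intro t ht
    have hM0 : 0 ≤ M := by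
      have h1 := hMle t ht
      obtain ⟨i, w, hw, rfl⟩ := hpt t ht
      exact le_trans (by positivity) h1
    obtain ⟨i, w, hw, rfl⟩ := hpt t ht
    obtain ⟨h1, h2, h3, c, C, hc, hCB, hC, hcC⟩ := hcon i
    have hR'0 : 0 < R' i := (hρ i).1.trans h1
    have hsubR : ball (0 : Fin q → ℂ) (R' i) ⊆ ball 0 (R i) := ball_subset_ball h2.le
    have hwn : ‖w‖ ≤ ρ i := mem_closedBall_zero_iff.1 hw
    have hwR : w ∈ ball (0 : Fin q → ℂ) (R' i) := mem_ball_zero_iff.2 (lt_of_le_of_lt hwn h1)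
    have h5 : ‖eval (F i w) Q‖ ≤ M * C ^ d * (‖w‖ / R' i) ^ (κ * d) := by
      refine norm_le_of_iteratedFDeriv (E := Fin q → ℂ) (m := κ * d) (G := fun w => eval (F i w) Q) hR'0
        (fun y hy => analyticAt_eval (hF i y (hsubR hy)) Q) ?_ (fun k hk w => eq_zero_of_taylor (hF00 i) (hQT i) hk w) hwR
      intro y hy
      have h6 := hMle _ (hSmem i y (hsubR hy))
      have h7 := (hcC y (ball_subset_closedBall hy)).2
      have h8 : 0 < ‖F i y‖ := norm_pos_iff.2 (hF0 i y (hsubR hy))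
      rw [div_le_iff₀ (pow_pos h8 d)] at h6
      exact h6.trans (mul_le_mul_of_nonneg_left (pow_le_pow_left₀ h8.le h7 d) hM0)
    have h9 : (‖w‖ / R' i) ^ (κ * d) ≤ lam ^ (κ * d) :=
      pow_le_pow_left₀ (by positivity) ((div_le_div_of_nonneg_right hwn hR'0.le).trans h3) _
    have h10 := (hcC w (ball_subset_closedBall hwR)).1
    have hFw : 0 < ‖F i w‖ := lt_of_lt_of_le hc h10
    rw [div_le_iff₀ (pow_pos hFw d)]
    have hCc : C ≤ B * c := by rwa [div_le_iff₀ hc] at hCB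
    have h11 : C ^ d * lam ^ (κ * d) ≤ (1 / 2) * ‖F i w‖ ^ d := by
      calc C ^ d * lam ^ (κ * d) ≤ (B * c) ^ d * lam ^ (κ * d) :=
            mul_le_mul_of_nonneg_right (pow_le_pow_left₀ hC.le hCc d) (pow_nonneg hlam0 _)
        _ = (lam ^ κ * B) ^ d * c ^ d := by rw [pow_mul]; ring
        _ ≤ (1 / 2) ^ d * ‖F i w‖ ^ d :=
            mul_le_mul (pow_le_pow_left₀ (by positivity) hκ d) (pow_le_pow_left₀ hc.le h10 d) (by positivity) (by positivity)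
        _ ≤ (1 / 2) ^ 1 * ‖F i w‖ ^ d := by
            refine mul_le_mul_of_nonneg_right ?_ (by positivity)
            exact pow_le_pow_of_le_one (by norm_num) (by norm_num) hd
        _ = (1 / 2) * ‖F i w‖ ^ d := by rw [pow_one]
    calc ‖eval (F i w) Q‖ ≤ M * C ^ d * (‖w‖ / R' i) ^ (κ * d) := h5
      _ ≤ M * C ^ d * lam ^ (κ * d) := mul_le_mul_of_nonneg_left h9 (by positivity)
      _ = M * (C ^ d * lam ^ (κ * d)) := by ring
      _ ≤ M * ((1 / 2) * ‖F i w‖ ^ d) := mul_le_mul_of_nonneg_left h11 hM0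
      _ = M / 2 * ‖F i w‖ ^ d := by ring
  have hM0 : ∀ t ∈ S, t ≤ 0 := by
    intro t ht
    have h1 : M ≤ M / 2 := by
      conv_lhs => rw [hM]
      exact csSup_le ⟨t, ht⟩ hhalf
    have h2 := hMle t ht
    linarith
  intro x hx
  induction x using Projectivization.ind with
  | h v hv =>
    rw [vanishesAt_mk_iff hQ]
    have h1 := hM0 (‖eval v Q‖ / ‖v‖ ^ d) (by rw [hS]; exact ⟨v, hv, hx, rfl⟩)
    have h2 : 0 < ‖v‖ ^ d := pow_pos (norm_pos_iff.2 hv) d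
    have h3 : ‖eval v Q‖ ≤ 0 := by
      by_contra h
      exact absurd h1 (not_le.2 (div_pos (not_le.1 h) h2))
    exact norm_le_zero_iff.1 h3

end Pool.Agent.H22.AlgD
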